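import Mathlib
import Pool.Agent.D0H2.CS.Down

/-!
# The maximum number of intersections of cross-Sperner families, odd ground sets

For odd `n = 2 d + 1`, the largest possible number of sets `A ∩ B`, `A ∈ 𝒜`, `B ∈ ℬ`, for
cross-Sperner families `𝒜, ℬ` of subsets of `[n]`, equals `2 ^ n - 2 ^ (d + 1) - 2 ^ d + 1`.

Proof of the upper bound, after passing to complements (unions instead of intersections). Let `F`,
`G` be the down-closures of the two families and `m = 2 ^ d`. The unions lie in `F ∨ G` and avoid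
`F ∪ G`; the two families lie in `F \ G` and `G \ F`, so their number is at most
`#(F \ G) * #(G \ F)`. If the number of unions were at least `2 ^ n - 3 m + 2`, these two facts
would force `m ≤ #(F \ G), #(G \ F)` and `#F, #G ≤ 2 m - 2`, and then the bound `CS.key` for unions
of two down-sets (proved by induction, with Kleitman's inequality in one case) gives
`#(F ∨ G) ≤ 2 m ^ 2 - (2 m - #F) (2 m - #G)`, a contradiction.
-/

namespace Pool.Agent.Results.MP_841146_co.OddCrossSperner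

open Finset
open scoped FinsetFamily

open Pool.Agent.D0H2.CS

theorem ar_a {m a b c U W : ℤ} (hm : 1 ≤ m) (h1 : 2 * m * m - 3 * m + 2 ≤ U) (h2 : U ≤ a * b)
    (h3 : U + (a + b + c) ≤ W) (h4 : W ≤ 2 * m * m) (hc : 1 ≤ c) (ha0 : 0 ≤ a) : m ≤ a := by
  by_contra hlt
  have hlt' : a ≤ m - 1 := by omega
  have hb : b ≤ 3 * m - 3 - a := by linarith
  have h5 : a * b ≤ a * (3 * m - 3 - a) := mul_le_mul_of_nonneg_left hb ha0
  have h6 : 0 ≤ (m - 1 - a) * (2 * m - 2 - a) := mul_nonneg (by linarith) (by linarith)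
  nlinarith

theorem ar_b {m a b c U W : ℤ} (h1 : 2 * m * m - 3 * m + 2 ≤ U)
    (h3 : U + (a + b + c) ≤ W) (h4 : W ≤ 2 * m * m)
    (ha : m ≤ a) (hb : m ≤ b) (hW : W ≤ 2 * m * m - (2 * m - (a + c)) * (2 * m - (b + c))) :
    False := by
  have h5 : a + b + c ≤ 3 * m - 2 := by linarith
  have h6 : 0 ≤ ((2 * m - (a + c)) - 2) * ((2 * m - (b + c)) - 2) :=
    mul_nonneg (by linarith) (by linarith)
  nlinarith

/-- The upper bound, for unions. -/
theorem upper (d : ℕ) (S T : Finset (Finset (Fin (2 * d + 1))))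
    (h : ∀ A ∈ S, ∀ B ∈ T, ¬ A ⊆ B ∧ ¬ B ⊆ A) :
    (#(S ⊻ T) : ℤ) ≤ 2 ^ (2 * d + 1) - 2 ^ (d + 1) - 2 ^ d + 1 := by
  classical
  by_contra hcon
  set m : ℤ := 2 ^ d with hm
  have hm1 : 1 ≤ m := by rw [hm]; exact one_le_pow₀ (by norm_num)
  have e1 : (2 : ℤ) ^ (2 * d + 1) = 2 * m * m := by rw [hm]; ring
  have e2 : (2 : ℤ) ^ (d + 1) = 2 * m := by rw [hm]; ring
  rw [e1, e2] at hcon
  have hU : 2 * m * m - 3 * m + 2 ≤ (#(S ⊻ T) : ℤ) := by
    have := not_le.1 hcon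
    linarith
  have hpos : (0 : ℤ) < #(S ⊻ T) := by nlinarith [sq_nonneg (m - 1)]
  have hpos' : 0 < #(S ⊻ T) := by exact_mod_cast hpos
  obtain ⟨W, hW⟩ := card_pos.1 hpos'
  obtain ⟨A₀, hA₀, B₀, hB₀, -⟩ := mem_sups.1 hW
  set F : Finset (Finset (Fin (2 * d + 1))) := univ.filter (fun X => ∃ A ∈ S, X ⊆ A) with hF
  set G : Finset (Finset (Fin (2 * d + 1))) := univ.filter (fun X => ∃ B ∈ T, X ⊆ B) with hG
  have mF : ∀ X, X ∈ F ↔ ∃ A ∈ S, X ⊆ A := fun X => by rw [hF, mem_filter]; simp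
  have mG : ∀ X, X ∈ G ↔ ∃ B ∈ T, X ⊆ B := fun X => by rw [hG, mem_filter]; simp
  have lF : IsLowerSet (F : Set (Finset (Fin (2 * d + 1)))) := by
    intro X Y hYX hX
    rw [mem_coe, mF] at hX ⊢
    obtain ⟨A, hA, hXA⟩ := hX
    exact ⟨A, hA, Subset.trans hYX hXA⟩
  have lG : IsLowerSet (G : Set (Finset (Fin (2 * d + 1)))) := by
    intro X Y hYX hX
    rw [mem_coe, mG] at hX ⊢
    obtain ⟨A, hA, hXA⟩ := hX
    exact ⟨A, hA, Subset.trans hYX hXA⟩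
  have hSF : S ⊆ F \ G := by
    intro A hA
    rw [mem_sdiff, mF, mG]
    refine ⟨⟨A, hA, Subset.refl A⟩, ?_⟩
    rintro ⟨B, hB, hAB⟩
    exact (h A hA B hB).1 hAB
  have hTG : T ⊆ G \ F := by
    intro B hB
    rw [mem_sdiff, mF, mG]
    refine ⟨⟨B, hB, Subset.refl B⟩, ?_⟩
    rintro ⟨A, hA, hBA⟩
    exact (h A hA B hB).2 hBA
  have eF : ∅ ∈ F := (mF _).2 ⟨A₀, hA₀, empty_subset _⟩
  have eG : ∅ ∈ G := (mG _).2 ⟨B₀, hB₀, empty_subset _⟩
  have hprod : #(S ⊻ T) ≤ #(F \ G) * #(G \ F) :=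
    (card_sups_le S T).trans (Nat.mul_le_mul (card_le_card hSF) (card_le_card hTG))
  have hdisj : Disjoint (S ⊻ T) (F ∪ G) := by
    rw [disjoint_left]
    intro X hX hX'
    obtain ⟨A, hA, B, hB, rfl⟩ := mem_sups.1 hX
    rw [sup_eq_union, mem_union, mF, mG] at hX'
    rcases hX' with ⟨A', hA', hs⟩ | ⟨B', hB', hs⟩
    · exact (h A' hA' B hB).2 (Subset.trans subset_union_right hs)
    · exact (h A hA B' hB').1 (Subset.trans subset_union_left hs)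
  have hsub : (S ⊻ T) ∪ (F ∪ G) ⊆ F ⊻ G := by
    intro X hX
    rw [mem_union, mem_union] at hX
    rw [mem_sups]
    rcases hX with hX | hX | hX
    · obtain ⟨A, hA, B, hB, rfl⟩ := mem_sups.1 hX
      exact ⟨A, (mem_sdiff.1 (hSF hA)).1, B, (mem_sdiff.1 (hTG hB)).1, rfl⟩
    · exact ⟨X, hX, ∅, eG, by simp⟩
    · exact ⟨∅, eF, X, hX, by simp⟩
  have hcard : #(S ⊻ T) + #(F ∪ G) ≤ #(F ⊻ G) := by
    rw [← card_union_of_disjoint hdisj]
    exact card_le_card hsub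
  have hall : #(F ⊻ G) ≤ 2 ^ (2 * d + 1) := by
    have h1 := card_le_univ (F ⊻ G)
    simpa using h1
  have hc : 1 ≤ #(F ∩ G) := card_pos.2 ⟨∅, mem_inter.2 ⟨eF, eG⟩⟩
  have cF : #(F \ G) + #(F ∩ G) = #F := card_sdiff_add_card_inter F G
  have cG : #(G \ F) + #(F ∩ G) = #G := by
    rw [inter_comm]; exact card_sdiff_add_card_inter G F
  have cU : #(F ∪ G) = #(F \ G) + #(G \ F) + #(F ∩ G) := by
    have := card_union_add_card_inter F G
    omega
  have z1 : (#(S ⊻ T) : ℤ) ≤ #(F \ G) * #(G \ F) := by exact_mod_cast hprod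
  have z2 : (#(S ⊻ T) : ℤ) + (#(F \ G) + #(G \ F) + #(F ∩ G)) ≤ #(F ⊻ G) := by
    rw [cU] at hcard
    exact_mod_cast hcard
  have z3 : (#(F ⊻ G) : ℤ) ≤ 2 * m * m := by
    rw [← e1]
    exact_mod_cast hall
  have z4 : (1 : ℤ) ≤ #(F ∩ G) := by exact_mod_cast hc
  have ha : m ≤ #(F \ G) := ar_a hm1 hU z1 z2 z3 z4 (by positivity)
  have hb : m ≤ #(G \ F) := ar_a hm1 hU (a := #(G \ F)) (b := #(F \ G)) (c := #(F ∩ G))
    (W := #(F ⊻ G)) (by linarith [mul_comm (#(F \ G) : ℤ) (#(G \ F))]) (by linarith) z3 z4 (by positivity)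
  have zF : (#F : ℤ) = #(F \ G) + #(F ∩ G) := by rw [← cF]; push_cast; ring
  have zG : (#G : ℤ) = #(G \ F) + #(F ∩ G) := by rw [← cG]; push_cast; ring
  have hF1 : 2 ^ d ≤ #F := by
    have : (2 : ℤ) ^ d ≤ #F := by rw [zF, ← hm]; linarith
    exact_mod_cast this
  have hG1 : 2 ^ d ≤ #G := by
    have : (2 : ℤ) ^ d ≤ #G := by rw [zG, ← hm]; linarith
    exact_mod_cast this
  have hF2 : #F ≤ 2 ^ (d + 1) := by
    have : (#F : ℤ) ≤ 2 ^ (d + 1) := by rw [zF, e2]; linarith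
    exact_mod_cast this
  have hG2 : #G ≤ 2 ^ (d + 1) := by
    have : (#G : ℤ) ≤ 2 ^ (d + 1) := by rw [zG, e2]; linarith
    exact_mod_cast this
  have hk := key (univ : Finset (Fin (2 * d + 1))) d d F G (by simp; ring) lF lG
    (fun _ _ => subset_univ _) (fun _ _ => subset_univ _) hF1 hF2 hG1 hG2
  have e3 : (2 : ℤ) ^ (d + d + 1) = 2 * m * m := by rw [hm]; ring
  rw [e3, e2, zF, zG] at hk
  exact ar_b hU z2 z3 ha hb hk

/-- The construction. -/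
theorem lower (d : ℕ) : ∃ S T : Finset (Finset (Fin (2 * d + 1))),
    (∀ A ∈ S, ∀ B ∈ T, ¬ A ⊆ B ∧ ¬ B ⊆ A) ∧
      (2 : ℤ) ^ (2 * d + 1) - 2 ^ (d + 1) - 2 ^ d + 1 ≤ #(image₂ (· ∩ ·) S T) := by
  classical
  obtain ⟨X, -, hX⟩ := exists_subset_card_eq (s := (univ : Finset (Fin (2 * d + 1)))) (n := d)
    (by simp; omega)
  have hXc : #(Xᶜ) = d + 1 := by
    rw [card_compl, hX]; simp; omega
  refine ⟨univ.filter (fun A => Xᶜ ⊆ A ∧ ¬ X ⊆ A), univ.filter (fun B => X ⊆ B ∧ ¬ Xᶜ ⊆ B),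
    ?_, ?_⟩
  · intro A hA B hB
    rw [mem_filter] at hA hB
    exact ⟨fun hs => hB.2.2 (Subset.trans hA.2.1 hs), fun hs => hA.2.2 (Subset.trans hB.2.1 hs)⟩
  · have hsub : (univ : Finset (Finset (Fin (2 * d + 1)))) \ (Icc X univ ∪ Icc Xᶜ univ) ⊆
        image₂ (· ∩ ·) (univ.filter (fun A => Xᶜ ⊆ A ∧ ¬ X ⊆ A))
          (univ.filter (fun B => X ⊆ B ∧ ¬ Xᶜ ⊆ B)) := by
      intro I hI
      rw [mem_sdiff, mem_union, not_or, mem_Icc, mem_Icc] at hI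
      have h1 : ¬ X ⊆ I := fun hs => hI.2.1 ⟨hs, subset_univ _⟩
      have h2 : ¬ Xᶜ ⊆ I := fun hs => hI.2.2 ⟨hs, subset_univ _⟩
      rw [mem_image₂]
      refine ⟨I ∪ Xᶜ, ?_, I ∪ X, ?_, ?_⟩
      · rw [mem_filter]
        refine ⟨mem_univ _, subset_union_right, fun hs => h1 fun x hx => ?_⟩
        have := hs hx
        rw [mem_union, mem_compl] at this
        exact this.resolve_right (fun h => h hx)
      · rw [mem_filter]
        refine ⟨mem_univ _, subset_union_right, fun hs => h2 fun x hx => ?_⟩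
        have := hs hx
        rw [mem_union] at this
        exact this.resolve_right (mem_compl.1 hx)
      · ext x
        simp only [mem_inter, mem_union, mem_compl]
        tauto
    have h1 := card_le_card hsub
    have h2 : #((univ : Finset (Finset (Fin (2 * d + 1)))) \ (Icc X univ ∪ Icc Xᶜ univ)) +
        #(Icc X univ ∪ Icc Xᶜ univ) = 2 ^ (2 * d + 1) := by
      rw [card_sdiff_add_card_eq_card (subset_univ _)]
      simp
    have h3 := card_union_add_card_inter (Icc X univ) (Icc Xᶜ univ)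
    have h4 : #(Icc X univ) = 2 ^ (d + 1) := by
      rw [card_Icc_finset (subset_univ X), hX]
      simp only [card_univ, Fintype.card_fin]
      congr 1
      omega
    have h5 : #(Icc Xᶜ univ) = 2 ^ d := by
      rw [card_Icc_finset (subset_univ Xᶜ), hXc]
      simp only [card_univ, Fintype.card_fin]
      congr 1
      omega
    have h6 : 1 ≤ #(Icc X univ ∩ Icc Xᶜ univ) := by
      refine card_pos.2 ⟨univ, ?_⟩
      rw [mem_inter, mem_Icc, mem_Icc]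
      exact ⟨⟨subset_univ _, le_refl _⟩, ⟨subset_univ _, le_refl _⟩⟩
    rw [h4, h5] at h3
    have h7 : 2 ^ (2 * d + 1) + 1 ≤ #(image₂ (· ∩ ·)
        (univ.filter (fun A : Finset (Fin (2 * d + 1)) => Xᶜ ⊆ A ∧ ¬ X ⊆ A))
          (univ.filter (fun B => X ⊆ B ∧ ¬ Xᶜ ⊆ B))) + 2 ^ (d + 1) + 2 ^ d := by omega
    have h8 : (2 : ℤ) ^ (2 * d + 1) + 1 ≤ #(image₂ (· ∩ ·)
        (univ.filter (fun A : Finset (Fin (2 * d + 1)) => Xᶜ ⊆ A ∧ ¬ X ⊆ A))
          (univ.filter (fun B => X ⊆ B ∧ ¬ Xᶜ ⊆ B))) + 2 ^ (d + 1) + 2 ^ d := by exact_mod_cast h7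
    linarith

/-- **Maximum number of intersections of cross-Sperner families, odd `n = 2 d + 1`.** The largest
value of `|{A ∩ B : A ∈ 𝒜, B ∈ ℬ}|` over all pairs of families `𝒜, ℬ` of subsets of `[2 d + 1]`
with `A ⊄ B` and `B ⊄ A` for all `A ∈ 𝒜`, `B ∈ ℬ` is `2 ^ (2 d + 1) - 2 ^ (d + 1) - 2 ^ d + 1`. -/
theorem result (d : ℕ) :
    IsGreatest {k : ℤ | ∃ 𝒜 ℬ : Finset (Finset (Fin (2 * d + 1))),
        (∀ A ∈ 𝒜, ∀ B ∈ ℬ, ¬ A ⊆ B ∧ ¬ B ⊆ A) ∧
          k = ((Finset.image₂ (fun A B => A ∩ B) 𝒜 ℬ).card : ℤ)}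
      (2 ^ (2 * d + 1) - 2 ^ (d + 1) - 2 ^ d + 1) := by
  have hup : ∀ 𝒜 ℬ : Finset (Finset (Fin (2 * d + 1))),
      (∀ A ∈ 𝒜, ∀ B ∈ ℬ, ¬ A ⊆ B ∧ ¬ B ⊆ A) →
        ((Finset.image₂ (fun A B => A ∩ B) 𝒜 ℬ).card : ℤ) ≤
          2 ^ (2 * d + 1) - 2 ^ (d + 1) - 2 ^ d + 1 := by
    intro 𝒜 ℬ h
    have h1 : (Finset.image₂ (fun A B => A ∩ B) 𝒜 ℬ).card = #(𝒜ᶜˢ ⊻ ℬᶜˢ) := by
      rw [← compls_infs, card_compls]
      rfl
    rw [h1]
    refine upper d _ _ ?_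
    intro A hA B hB
    rw [mem_compls] at hA hB
    have := h _ hA _ hB
    refine ⟨fun hs => this.2 (compl_subset_compl.2 hs), fun hs => this.1 (compl_subset_compl.2 hs)⟩
  refine ⟨?_, ?_⟩
  · obtain ⟨S, T, h1, h2⟩ := lower d
    exact ⟨S, T, h1, le_antisymm h2 (hup S T h1)⟩
  · rintro k ⟨S, T, h1, rfl⟩
    exact hup S T h1

end Pool.Agent.Results.MP_841146_co.OddCrossSperner
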